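import Pool.Agent.Helper5.SR.St3

/-!
# Project SR: module CUT (cutting off a function with a double zero)
-/

set_option autoImplicit false

namespace Pool.Agent.Helper82.SR

open MeasureTheory Set Metric Filter Topology
open scoped Real
open Helper5.SR Pool.Agent.Helper51.LT

/-- the bump function -/
noncomputable def bmp : ContDiffBump (0 : ℝ) := ⟨1 / 2, 1, by norm_num, by norm_num⟩

lemma bmp_contDiff (n : ℕ) : ContDiff ℝ n (bmp : ℝ → ℝ) := bmp.contDiff

lemma bmp_one {x : ℝ} (h : |x| ≤ 1 / 2) : bmp x = 1 := by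
  apply bmp.one_of_mem_closedBall
  rw [mem_closedBall_zero_iff, Real.norm_eq_abs]
  exact h

lemma bmp_zero {x : ℝ} (h : 1 ≤ |x|) : bmp x = 0 := by
  apply bmp.zero_of_le_dist
  rw [dist_zero_right, Real.norm_eq_abs]
  exact h

/-- the derivatives of the bump -/
noncomputable def bd (k : ℕ) : ℝ → ℝ := iteratedDeriv k (bmp : ℝ → ℝ)

lemma bd_zero : bd 0 = (bmp : ℝ → ℝ) := iteratedDeriv_zero

lemma bd_hasDerivAt (k : ℕ) (x : ℝ) : HasDerivAt (bd k) (bd (k + 1) x) x := by
  have h : ContDiff ℝ (k + 1 : ℕ) (bmp : ℝ → ℝ) := bmp_contDiff (k + 1)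
  have h2 : Differentiable ℝ (iteratedDeriv k (bmp : ℝ → ℝ)) :=
    h.differentiable_iteratedDeriv k (by exact_mod_cast Nat.lt_succ_self k)
  have h3 := (h2 x).hasDerivAt
  rw [← iteratedDeriv_succ] at h3
  exact h3

lemma bd_continuous (k : ℕ) : Continuous (bd k) := by
  rw [continuous_iff_continuousAt]
  intro x
  exact (bd_hasDerivAt k x).continuousAt

lemma bd_out (k : ℕ) {x : ℝ} (h : 1 < |x|) : bd k x = 0 := by
  have hev : (bmp : ℝ → ℝ) =ᶠ[𝓝 x] fun _ => (0 : ℝ) := by
    have ho : IsOpen {y : ℝ | 1 < |y|} := isOpen_lt continuous_const continuous_abs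
    filter_upwards [ho.mem_nhds h] with y hy
    exact bmp_zero (le_of_lt hy)
  have h1 : iteratedDeriv k (bmp : ℝ → ℝ) x = iteratedDeriv k (fun _ => (0 : ℝ)) x :=
    hev.iteratedDeriv_eq k
  rw [bd, h1]
  simp

lemma bd_bound (k : ℕ) : ∃ C : ℝ, 0 ≤ C ∧ ∀ x, |bd k x| ≤ C := by
  obtain ⟨C, hC⟩ := (isCompact_Icc (a := (-1 : ℝ)) (b := 1)).exists_bound_of_continuousOn
    (bd_continuous k).continuousOn
  refine ⟨max C 0, le_max_right _ _, fun x => ?_⟩
  by_cases hx : |x| ≤ 1
  · have := hC x (abs_le.mp hx)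
    rw [Real.norm_eq_abs] at this
    exact this.trans (le_max_left _ _)
  · rw [bd_out k (not_le.mp hx), abs_zero]
    exact le_max_right _ _

theorem hCut : StCut := by
  obtain ⟨C0, hC0, hb0⟩ := bd_bound 0
  obtain ⟨C1, hC1, hb1⟩ := bd_bound 1
  obtain ⟨C2, hC2, hb2⟩ := bd_bound 2
  obtain ⟨C3, hC3, hb3⟩ := bd_bound 3
  set K : ℝ := C0 + C1 + C2 + C3 + 1 with hK
  have hKpos : 0 < K := by positivity
  have k0 : ∀ x, |bd 0 x| ≤ K := fun x => (hb0 x).trans (by linarith)
  have k1 : ∀ x, |bd 1 x| ≤ K := fun x => (hb1 x).trans (by linarith)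
  have k2 : ∀ x, |bd 2 x| ≤ K := fun x => (hb2 x).trans (by linarith)
  have k3 : ∀ x, |bd 3 x| ≤ K := fun x => (hb3 x).trans (by linarith)
  refine ⟨8 * K, by positivity, ?_⟩
  intro g θ B δ hg hg0 hg1 hB2 hB3 hδ hδ1
  have hB : 0 ≤ B := (abs_nonneg _).trans (hB2 0)
  have hg' : ContDiff ℝ 2 (deriv g) := by
    have : ContDiff ℝ (2 + 1) g := by norm_num; exact hg
    exact (contDiff_succ_iff_deriv.mp this).2.2
  have hg'' : ContDiff ℝ 1 (deriv (deriv g)) := by
    have : ContDiff ℝ (1 + 1) (deriv g) := by norm_num; exact hg'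
    exact (contDiff_succ_iff_deriv.mp this).2.2
  have d0 : Differentiable ℝ g := hg.differentiable (by norm_num)
  have d1 : Differentiable ℝ (deriv g) := hg'.differentiable (by norm_num)
  have d2 : Differentiable ℝ (deriv (deriv g)) := hg''.differentiable (by norm_num)
  have G1 : ∀ t, |deriv g t| ≤ B * |t - θ| := by
    intro t
    have := Convex.norm_image_sub_le_of_norm_deriv_le (𝕜 := ℝ) (f := deriv g) (C := B) (s := univ)
      (x := θ) (y := t) (fun x _ => d1 x) (fun x _ => by rw [Real.norm_eq_abs]; exact hB2 x)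
      convex_univ (mem_univ _) (mem_univ _)
    rw [hg1, sub_zero, Real.norm_eq_abs, Real.norm_eq_abs] at this
    exact this
  have G0 : ∀ t, |g t| ≤ B * |t - θ| * |t - θ| := by
    intro t
    have := Convex.norm_image_sub_le_of_norm_deriv_le (𝕜 := ℝ) (f := g) (C := B * |t - θ|)
      (s := closedBall θ |t - θ|)
      (x := θ) (y := t) (fun x _ => d0 x) (fun x hx => by
        rw [Real.norm_eq_abs]
        refine (G1 x).trans ?_
        rw [mem_closedBall, Real.dist_eq] at hx
        gcongr)
      (convex_closedBall _ _) (mem_closedBall_self (abs_nonneg _))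
      (by rw [mem_closedBall, Real.dist_eq])
    rw [hg0, sub_zero, Real.norm_eq_abs, Real.norm_eq_abs] at this
    exact this
  set c : ℕ → ℝ → ℝ := fun k t => bd k ((t - θ) / δ) with hc
  have hcd : ∀ k t, HasDerivAt (c k) (c (k + 1) t / δ) t := by
    intro k t
    have h1 : HasDerivAt (fun t : ℝ => (t - θ) / δ) (1 / δ) t :=
      ((hasDerivAt_id t).sub_const θ).div_const δ
    have h2 := (bd_hasDerivAt k ((t - θ) / δ)).comp t h1
    have h3 : bd (k + 1) ((t - θ) / δ) * (1 / δ) = c (k + 1) t / δ := by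
      simp only [hc]; ring
    rw [h3] at h2
    exact h2
  set u : ℝ → ℝ := fun t => c 0 t * g t with hu
  have hu1 : ∀ t, HasDerivAt u (c 1 t / δ * g t + c 0 t * deriv g t) t := fun t =>
    (hcd 0 t).mul (d0 t).hasDerivAt
  have hu1' : deriv u = fun t => c 1 t / δ * g t + c 0 t * deriv g t := funext fun t => (hu1 t).deriv
  have hu2 : ∀ t, HasDerivAt (fun t => c 1 t / δ * g t + c 0 t * deriv g t)
      ((c 2 t / δ / δ * g t + c 1 t / δ * deriv g t) +
        (c 1 t / δ * deriv g t + c 0 t * deriv (deriv g) t)) t := fun t =>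
    (((hcd 1 t).div_const δ).mul (d0 t).hasDerivAt).add ((hcd 0 t).mul (d1 t).hasDerivAt)
  have hu2' : deriv (deriv u) = fun t => (c 2 t / δ / δ * g t + c 1 t / δ * deriv g t) +
        (c 1 t / δ * deriv g t + c 0 t * deriv (deriv g) t) := by
    rw [hu1']; exact funext fun t => (hu2 t).deriv
  have hu3 : ∀ t, HasDerivAt (fun t => (c 2 t / δ / δ * g t + c 1 t / δ * deriv g t) +
        (c 1 t / δ * deriv g t + c 0 t * deriv (deriv g) t))
      (((c 3 t / δ / δ / δ * g t + c 2 t / δ / δ * deriv g t) +
        (c 2 t / δ / δ * deriv g t + c 1 t / δ * deriv (deriv g) t)) +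
       ((c 2 t / δ / δ * deriv g t + c 1 t / δ * deriv (deriv g) t) +
        (c 1 t / δ * deriv (deriv g) t + c 0 t * deriv (deriv (deriv g)) t))) t := fun t =>
    (((((hcd 2 t).div_const δ).div_const δ).mul (d0 t).hasDerivAt).add
      (((hcd 1 t).div_const δ).mul (d1 t).hasDerivAt)).add
    ((((hcd 1 t).div_const δ).mul (d1 t).hasDerivAt).add
      ((hcd 0 t).mul (d2 t).hasDerivAt))
  have hu3' : deriv (deriv (deriv u)) = fun t =>
      (((c 3 t / δ / δ / δ * g t + c 2 t / δ / δ * deriv g t) +
        (c 2 t / δ / δ * deriv g t + c 1 t / δ * deriv (deriv g) t)) +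
       ((c 2 t / δ / δ * deriv g t + c 1 t / δ * deriv (deriv g) t) +
        (c 1 t / δ * deriv (deriv g) t + c 0 t * deriv (deriv (deriv g)) t))) := by
    rw [hu2']; exact funext fun t => (hu3 t).deriv
  have hout : ∀ k t, δ < |t - θ| → c k t = 0 := by
    intro k t ht
    apply bd_out
    rw [abs_div, abs_of_pos hδ, lt_div_iff₀ hδ, one_mul]
    exact ht
  have B0 : ∀ t, |t - θ| ≤ δ → |g t| ≤ B * δ * δ := fun t ht => (G0 t).trans (by gcongr)
  have B1 : ∀ t, |t - θ| ≤ δ → |deriv g t| ≤ B * δ := fun t ht => (G1 t).trans (by gcongr)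
  refine ⟨u, ?_, ?_, ?_, ?_, ?_, ?_⟩
  · have h1 : ContDiff ℝ 3 (c 0) := by
      have h2 : ContDiff ℝ 3 (fun t : ℝ => (t - θ) / δ) :=
        (contDiff_id.sub contDiff_const).div_const δ
      have h3 : ContDiff ℝ 3 (bd 0) := by
        rw [bd_zero]; exact_mod_cast bmp_contDiff 3
      exact h3.comp h2
    exact h1.mul hg
  · intro t ht
    have : c 0 t = 0 := by
      simp only [hc]
      rw [bd_zero]
      apply bmp_zero
      rw [abs_div, abs_of_pos hδ, le_div_iff₀ hδ, one_mul]
      exact ht
    simp only [hu, this, zero_mul]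
  · intro t
    rw [hu2']
    simp only
    by_cases ht : |t - θ| ≤ δ
    · have e1 : |c 2 t / δ / δ * g t| ≤ K * B := by
        rw [abs_mul, abs_div, abs_div, abs_of_pos hδ]
        calc |c 2 t| / δ / δ * |g t| ≤ K / δ / δ * (B * δ * δ) := by
              gcongr
              · exact k2 _
              · exact B0 t ht
          _ = K * B := by field_simp
      have e2 : |c 1 t / δ * deriv g t| ≤ K * B := by
        rw [abs_mul, abs_div, abs_of_pos hδ]
        calc |c 1 t| / δ * |deriv g t| ≤ K / δ * (B * δ) := by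
              gcongr
              · exact k1 _
              · exact B1 t ht
          _ = K * B := by field_simp
      have e3 : |c 0 t * deriv (deriv g) t| ≤ K * B := by
        rw [abs_mul]
        gcongr
        · exact k0 _
        · exact hB2 t
      have := abs_add_le (c 2 t / δ / δ * g t + c 1 t / δ * deriv g t)
        (c 1 t / δ * deriv g t + c 0 t * deriv (deriv g) t)
      have := abs_add_le (c 2 t / δ / δ * g t) (c 1 t / δ * deriv g t)
      have := abs_add_le (c 1 t / δ * deriv g t) (c 0 t * deriv (deriv g) t)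
      have hKB : 0 ≤ K * B := by positivity
      linarith
    · have ht' := not_le.mp ht
      rw [hout 0 t ht', hout 1 t ht', hout 2 t ht']
      simp only [zero_div, zero_mul, add_zero, abs_zero]
      positivity
  · intro t
    rw [hu3']
    simp only
    by_cases ht : |t - θ| ≤ δ
    · have e1 : |c 3 t / δ / δ / δ * g t| ≤ K * B / δ := by
        rw [abs_mul, abs_div, abs_div, abs_div, abs_of_pos hδ]
        calc |c 3 t| / δ / δ / δ * |g t| ≤ K / δ / δ / δ * (B * δ * δ) := by
              gcongr
              · exact k3 _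
              · exact B0 t ht
          _ = K * B / δ := by field_simp
      have e2 : |c 2 t / δ / δ * deriv g t| ≤ K * B / δ := by
        rw [abs_mul, abs_div, abs_div, abs_of_pos hδ]
        calc |c 2 t| / δ / δ * |deriv g t| ≤ K / δ / δ * (B * δ) := by
              gcongr
              · exact k2 _
              · exact B1 t ht
          _ = K * B / δ := by field_simp
      have e3 : |c 1 t / δ * deriv (deriv g) t| ≤ K * B / δ := by
        rw [abs_mul, abs_div, abs_of_pos hδ]
        calc |c 1 t| / δ * |deriv (deriv g) t| ≤ K / δ * B := by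
              gcongr
              · exact k1 _
              · exact hB2 t
          _ = K * B / δ := by field_simp
      have e4 : |c 0 t * deriv (deriv (deriv g)) t| ≤ K * B / δ := by
        rw [abs_mul]
        calc |c 0 t| * |deriv (deriv (deriv g)) t| ≤ K * B := by
              gcongr
              · exact k0 _
              · exact hB3 t
          _ ≤ K * B / δ := by
              rw [le_div_iff₀ hδ]
              have hKB : 0 ≤ K * B := by positivity
              nlinarith
      have a1 := abs_add_le ((c 3 t / δ / δ / δ * g t + c 2 t / δ / δ * deriv g t) +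
        (c 2 t / δ / δ * deriv g t + c 1 t / δ * deriv (deriv g) t))
        ((c 2 t / δ / δ * deriv g t + c 1 t / δ * deriv (deriv g) t) +
        (c 1 t / δ * deriv (deriv g) t + c 0 t * deriv (deriv (deriv g)) t))
      have a2 := abs_add_le (c 3 t / δ / δ / δ * g t + c 2 t / δ / δ * deriv g t)
        (c 2 t / δ / δ * deriv g t + c 1 t / δ * deriv (deriv g) t)
      have a3 := abs_add_le (c 2 t / δ / δ * deriv g t + c 1 t / δ * deriv (deriv g) t)
        (c 1 t / δ * deriv (deriv g) t + c 0 t * deriv (deriv (deriv g)) t)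
      have a4 := abs_add_le (c 3 t / δ / δ / δ * g t) (c 2 t / δ / δ * deriv g t)
      have a5 := abs_add_le (c 2 t / δ / δ * deriv g t) (c 1 t / δ * deriv (deriv g) t)
      have a6 := abs_add_le (c 1 t / δ * deriv (deriv g) t) (c 0 t * deriv (deriv (deriv g)) t)
      have : 8 * K * B / δ = 8 * (K * B / δ) := by ring
      rw [this]
      linarith
    · have ht' := not_le.mp ht
      rw [hout 0 t ht', hout 1 t ht', hout 2 t ht', hout 3 t ht']
      simp only [zero_div, zero_mul, add_zero, abs_zero]
      positivity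
  · intro t ht
    have : c 0 t = 1 := by
      simp only [hc]
      rw [bd_zero]
      apply bmp_one
      rw [abs_div, abs_of_pos hδ, div_le_iff₀ hδ]
      linarith
    simp only [hu, this, one_mul]
  · intro t ht
    have h0 : 0 ≤ c 0 t := by
      simp only [hc]
      rw [bd_zero]
      exact bmp.nonneg
    have h1 : c 0 t ≤ 1 := by
      simp only [hc]
      rw [bd_zero]
      exact bmp.le_one
    exact ⟨mul_nonneg h0 ht, by simpa using mul_le_mul_of_nonneg_right h1 ht⟩

end Pool.Agent.Helper82.SR
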