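import Pool.Agent.Helper5.SR.St2

/-!
# Project SR: module ZF (explicit inverse of the half-disc map)
-/

set_option autoImplicit false

namespace Pool.Agent.Helper82.SR

open Complex MeasureTheory Set Metric Filter Topology
open scoped Real
open Helper5.SR Pool.Agent.Helper51.LT

/-- principal square root -/
noncomputable def sr (w : ℂ) : ℂ := w ^ (2⁻¹ : ℂ)

lemma sr_sq (w : ℂ) : sr w ^ 2 = w := by
  have := Complex.cpow_nat_inv_pow w (n := 2) (by norm_num)
  simp only [Nat.cast_ofNat] at this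
  exact this

lemma sr_re_pos {w : ℂ} (hw : w ∈ slitPlane) : 0 < (sr w).re := by
  have hw0 : w ≠ 0 := slitPlane_ne_zero hw
  rw [sr, cpow_def_of_ne_zero hw0, exp_re]
  apply mul_pos (Real.exp_pos _)
  have h1 : (log w * 2⁻¹).im = arg w / 2 := by
    have : log w * 2⁻¹ = log w / 2 := by rw [div_eq_mul_inv]
    rw [this]
    simp [log_im]
  rw [h1]
  have h2 := neg_pi_lt_arg w
  have h3 := arg_le_pi w
  have h4 : arg w ≠ π := (mem_slitPlane_iff_arg.mp hw).1
  have h5 : arg w < π := lt_of_le_of_ne h3 h4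
  exact Real.cos_pos_of_mem_Ioo ⟨by linarith, by linarith⟩

lemma sr_of_sq {u : ℂ} (hu : 0 < u.re) : sr (u ^ 2) = u := by
  have h1 : u ^ 2 ∈ slitPlane := by
    rw [mem_slitPlane_iff]
    by_cases h : u.im = 0
    · left
      rw [pow_two, mul_re, h]
      nlinarith
    · right
      rw [pow_two, mul_im]
      have : u.re * u.im + u.im * u.re = 2 * (u.re * u.im) := by ring
      rw [this]
      exact mul_ne_zero two_ne_zero (mul_ne_zero hu.ne' h)
  have h2 := sr_sq (u ^ 2)
  have h3 := sr_re_pos h1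
  rcases sq_eq_sq_iff_eq_or_eq_neg.mp h2 with h | h
  · exact h
  · rw [h, neg_re] at h3
    linarith

/-- the variable `v` -/
noncomputable def vv (x : ℂ) : ℂ := (1 - x) / (1 + x)

/-- the inverse map -/
noncomputable def ZZ (x : ℂ) : ℂ := vv x / (1 + sr (1 + vv x ^ 2))

lemma slit_of_re {v : ℂ} (hv : 0 < v.re) : 1 + v ^ 2 ∈ slitPlane := by
  rw [mem_slitPlane_iff]
  by_cases h : v.im = 0
  · left
    rw [add_re, one_re, pow_two, mul_re, h]
    nlinarith
  · right
    rw [add_im, one_im, pow_two, mul_im]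
    have : 0 + (v.re * v.im + v.im * v.re) = 2 * (v.re * v.im) := by ring
    rw [this]
    exact mul_ne_zero two_ne_zero (mul_ne_zero hv.ne' h)

lemma slit_of_norm {v : ℂ} (hv : ‖v‖ < 1) : 1 + v ^ 2 ∈ slitPlane := by
  rw [mem_slitPlane_iff]
  left
  have h1 : |(v ^ 2).re| ≤ ‖v ^ 2‖ := abs_re_le_norm _
  rw [norm_pow] at h1
  have h2 : ‖v‖ ^ 2 < 1 := by
    have := norm_nonneg v
    nlinarith
  rw [add_re, one_re]
  have := neg_abs_le (v ^ 2).re
  linarith

lemma one_add_ne {x : ℂ} (hx : x ∈ ball (0 : ℂ) 1) : 1 + x ≠ 0 := by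
  intro h
  have : x = -1 := by linear_combination h
  rw [this, mem_ball_zero_iff] at hx
  simp at hx

lemma vv_re {x : ℂ} (hx : x ∈ ball (0 : ℂ) 1) : 0 < (vv x).re := by
  have hne := one_add_ne hx
  have h1 : ‖x‖ < 1 := by simpa using hx
  have h2 : x.re ^ 2 + x.im ^ 2 < 1 := by
    have h3 : ‖x‖ ^ 2 < 1 := by
      have := norm_nonneg x
      nlinarith
    rw [← normSq_eq_norm_sq, normSq_apply] at h3
    nlinarith
  have hpos : 0 < normSq (1 + x) := normSq_pos.mpr hne
  have h4 : (vv x).re = (1 - x.re ^ 2 - x.im ^ 2) / normSq (1 + x) := by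
    rw [vv, div_re]
    simp only [sub_re, one_re, add_re, sub_im, one_im, add_im]
    field_simp
    ring
  rw [h4]
  apply div_pos _ hpos
  linarith

lemma near {x : ℂ} (hx : x ∈ ball (1 : ℂ) (1 / 2000)) : 1 + x ≠ 0 ∧ ‖vv x‖ ≤ 1 / 2000 := by
  have h1 : ‖1 - x‖ < 1 / 2000 := by
    rw [mem_ball, dist_eq_norm, norm_sub_rev] at hx
    exact hx
  have h2 : 1 ≤ ‖1 + x‖ := by
    have h3 : ‖(2 : ℂ)‖ ≤ ‖1 + x‖ + ‖1 - x‖ := by
      have : (2 : ℂ) = (1 + x) + (1 - x) := by ring
      rw [this]
      exact norm_add_le _ _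
    have h4 : ‖(2 : ℂ)‖ = 2 := by simp
    linarith
  have hne : 1 + x ≠ 0 := by
    intro h
    rw [h, norm_zero] at h2
    linarith
  refine ⟨hne, ?_⟩
  rw [vv, norm_div, div_le_iff₀ (by linarith)]
  nlinarith

lemma one_add_sr_ne {w : ℂ} (hw : w ∈ slitPlane) : 1 + sr w ≠ 0 ∧ 1 ≤ ‖1 + sr w‖ := by
  have h1 := sr_re_pos hw
  have h2 : 1 ≤ ‖1 + sr w‖ := by
    have h3 := abs_re_le_norm (1 + sr w)
    rw [add_re, one_re, abs_of_pos (by linarith)] at h3
    linarith
  refine ⟨?_, h2⟩
  intro h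
  rw [h, norm_zero] at h2
  linarith

lemma ZZ_diff {x : ℂ} (hne : 1 + x ≠ 0) (hs : 1 + vv x ^ 2 ∈ slitPlane) :
    DifferentiableAt ℂ ZZ x := by
  have h1 : DifferentiableAt ℂ vv x := by
    unfold vv
    fun_prop (disch := exact hne)
  have h2 : DifferentiableAt ℂ (fun x => sr (1 + vv x ^ 2)) x := by
    unfold sr
    exact ((h1.pow 2).const_add 1).cpow_const hs
  have h3 : DifferentiableAt ℂ (fun x => 1 + sr (1 + vv x ^ 2)) x := h2.const_add 1
  exact h1.div h3 (one_add_sr_ne hs).1

/-- the main identities -/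
lemma key {v : ℂ} (hv : 0 < v.re) : ∃ a : ℂ, a = v + sr (1 + v ^ 2) ∧ 0 < a.re ∧ 1 < normSq a ∧
    v / (1 + sr (1 + v ^ 2)) = (a - 1) / (a + 1) ∧ 2 * a * v = a ^ 2 - 1 := by
  have hs := slit_of_re hv
  obtain ⟨s, hs'⟩ : ∃ s, s = sr (1 + v ^ 2) := ⟨_, rfl⟩
  have hsq : s ^ 2 = 1 + v ^ 2 := by rw [hs', sr_sq]
  have hsre : 0 < s.re := by rw [hs']; exact sr_re_pos hs
  have hs1 : 1 + s ≠ 0 := by rw [hs']; exact (one_add_sr_ne hs).1
  rw [← hs']
  have hare : 0 < (v + s).re := by rw [add_re]; linarith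
  have h1 : 2 * (v + s) * v = (v + s) ^ 2 - 1 := by linear_combination (-1 : ℂ) * hsq
  have ha0 : v + s ≠ 0 := by
    intro h
    rw [h] at hare
    simp at hare
  have ha1 : v + s + 1 ≠ 0 := by
    intro h
    have := congrArg re h
    rw [add_re, one_re, zero_re] at this
    linarith
  refine ⟨v + s, rfl, hare, ?_, ?_, h1⟩
  · -- 2 Re v |a|² = Re a (|a|² - 1)
    have h2 : 2 * v * (normSq (v + s) : ℂ) = (v + s) * (normSq (v + s) : ℂ) -
        (starRingEnd ℂ) (v + s) := by
      have h3 : (v + s) * (starRingEnd ℂ) (v + s) = (normSq (v + s) : ℂ) := mul_conj _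
      have h4 : (v + s) * (2 * v * (starRingEnd ℂ) (v + s) * (v + s)) =
          (v + s) * ((v + s) * ((v + s) * (starRingEnd ℂ) (v + s)) -
            (starRingEnd ℂ) (v + s)) := by
        linear_combination (v + s) * (starRingEnd ℂ) (v + s) * h1
      have h5 := mul_left_cancel₀ ha0 h4
      rw [← h3]
      linear_combination h5
    have h6 := congrArg re h2
    simp only [mul_re, sub_re, conj_re, ofReal_re, ofReal_im, mul_zero, sub_zero, re_ofNat,
      im_ofNat, zero_mul] at h6
    have h8 : 0 < normSq (v + s) := normSq_pos.mpr ha0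
    have h9 : 2 * v.re * normSq (v + s) = (v + s).re * (normSq (v + s) - 1) := by
      linear_combination h6
    have h10 : 0 < (v + s).re * (normSq (v + s) - 1) := by
      rw [← h9]
      positivity
    have h11 := (pos_iff_pos_of_mul_pos h10).mp hare
    linarith
  · rw [div_eq_div_iff hs1 ha1]
    linear_combination (-1 : ℂ) * hsq

lemma ZZ_props {x : ℂ} (hx : x ∈ ball (0 : ℂ) 1) : ‖ZZ x‖ < 1 ∧ 0 < (ZZ x).re ∧ XX (ZZ x) = x := by
  have hv := vv_re hx
  obtain ⟨a, ha, hare, han, hz, hav⟩ := key hv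
  have ha1 : a + 1 ≠ 0 := by
    intro h
    have := congrArg re h
    rw [add_re, one_re, zero_re] at this
    linarith
  have ha0 : a ≠ 0 := by
    intro h
    rw [h] at hare
    simp at hare
  have hZ : ZZ x = (a - 1) / (a + 1) := by rw [ZZ, hz]
  have hpos : 0 < normSq (a + 1) := normSq_pos.mpr ha1
  refine ⟨?_, ?_, ?_⟩
  · rw [hZ, norm_div, div_lt_one (norm_pos_iff.mpr ha1)]
    apply lt_of_pow_lt_pow_left₀ 2 (norm_nonneg _)
    rw [← normSq_eq_norm_sq, ← normSq_eq_norm_sq, normSq_apply, normSq_apply]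
    simp only [sub_re, one_re, add_re, sub_im, one_im, add_im]
    nlinarith
  · rw [hZ, div_re]
    have : (a - 1).re * (a + 1).re / normSq (a + 1) + (a - 1).im * (a + 1).im / normSq (a + 1) =
        (normSq a - 1) / normSq (a + 1) := by
      rw [normSq_apply a]
      simp only [sub_re, one_re, add_re, sub_im, one_im, add_im]
      field_simp
      ring
    rw [this]
    exact div_pos (by linarith) hpos
  · have hne := one_add_ne hx
    have hvx : vv x * (1 + x) = 1 - x := by
      rw [vv, div_mul_cancel₀ _ hne]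
    rw [hZ, XX]
    have e1 : 1 - 2 * ((a - 1) / (a + 1)) - ((a - 1) / (a + 1)) ^ 2 =
        (4 * a - 2 * (a ^ 2 - 1)) / (a + 1) ^ 2 := by
      field_simp
      ring
    have e2 : 1 + 2 * ((a - 1) / (a + 1)) - ((a - 1) / (a + 1)) ^ 2 =
        (4 * a + 2 * (a ^ 2 - 1)) / (a + 1) ^ 2 := by
      field_simp
      ring
    have e3 : 4 * a + 2 * (a ^ 2 - 1) = 4 * a * (1 + vv x) := by
      linear_combination (-2 : ℂ) * hav
    have e4 : 4 * a - 2 * (a ^ 2 - 1) = 4 * a * (1 - vv x) := by
      linear_combination (2 : ℂ) * hav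
    have hv1 : 1 + vv x ≠ 0 := by
      intro h
      have := congrArg re h
      rw [add_re, one_re, zero_re] at this
      linarith
    have ha1' : (a + 1) ^ 2 ≠ 0 := pow_ne_zero _ ha1
    rw [e1, e2, e3, e4, div_div_div_cancel_right₀ ha1', mul_div_mul_left _ _ (by simp [ha0]),
      div_eq_iff hv1]
    linear_combination (-1 : ℂ) * hvx

theorem hZf : StZf := by
  refine ⟨ZZ, ?_, ?_, fun x hx => ZZ_props hx, ?_, ?_⟩
  · rintro x (hx | hx)
    · exact (ZZ_diff (one_add_ne hx) (slit_of_re (vv_re hx))).differentiableWithinAt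
    · have h := near hx
      exact (ZZ_diff h.1 (slit_of_norm (h.2.trans_lt (by norm_num)))).differentiableWithinAt
  · simp [ZZ, vv]
  · intro x hx
    have h := near hx
    have h1 := (one_add_sr_ne (slit_of_norm (h.2.trans_lt (by norm_num)))).2
    rw [ZZ, norm_div]
    refine (div_le_self (norm_nonneg _) h1).trans h.2
  · intro z hz hzre
    have hz1 : ‖z‖ < 1 := by simpa using hz
    have h1z : 1 - z ≠ 0 := by
      intro h
      have : z = 1 := by linear_combination -h
      rw [this] at hz1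
      simp at hz1
    obtain ⟨a, ha⟩ : ∃ a, a = (1 + z) / (1 - z) := ⟨_, rfl⟩
    have hnsq : z.re ^ 2 + z.im ^ 2 < 1 := by
      have h3 : ‖z‖ ^ 2 < 1 := by
        have := norm_nonneg z
        nlinarith
      rw [← normSq_eq_norm_sq, normSq_apply] at h3
      nlinarith
    have hpos : 0 < normSq (1 - z) := normSq_pos.mpr h1z
    have hare : 0 < a.re := by
      rw [ha, div_re]
      have : (1 + z).re * (1 - z).re / normSq (1 - z) + (1 + z).im * (1 - z).im / normSq (1 - z) =
          (1 - z.re ^ 2 - z.im ^ 2) / normSq (1 - z) := by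
        simp only [sub_re, one_re, add_re, sub_im, one_im, add_im]
        field_simp
        ring
      rw [this]
      exact div_pos (by linarith) hpos
    have han : 1 < normSq a := by
      rw [ha, map_div₀, lt_div_iff₀ hpos, one_mul, normSq_apply, normSq_apply]
      simp only [sub_re, one_re, add_re, sub_im, one_im, add_im]
      nlinarith
    have ha0 : a ≠ 0 := by
      intro h
      rw [h] at hare
      simp at hare
    have ha1 : a + 1 ≠ 0 := by
      intro h
      have := congrArg re h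
      rw [add_re, one_re, zero_re] at this
      linarith
    have hza : z = (a - 1) / (a + 1) := by
      rw [eq_div_iff ha1, ha]
      field_simp
      ring
    obtain ⟨v, hv⟩ : ∃ v, v = (a - a⁻¹) / 2 := ⟨_, rfl⟩
    have hinv : a⁻¹ = (starRingEnd ℂ) a * ((normSq a)⁻¹ : ℝ) := inv_def a
    have hvre : 0 < v.re := by
      have h2 : v.re = a.re * (1 - (normSq a)⁻¹) / 2 := by
        rw [hv, hinv]
        have : (a - (starRingEnd ℂ) a * ((normSq a)⁻¹ : ℝ)) / 2 =
            ((1 / 2 : ℝ) : ℂ) * (a - (starRingEnd ℂ) a * ((normSq a)⁻¹ : ℝ)) := by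
          push_cast
          ring
        rw [this, re_ofReal_mul, sub_re, re_mul_ofReal, conj_re]
        ring
      rw [h2]
      have h3 : (normSq a)⁻¹ < 1 := inv_lt_one_of_one_lt₀ han
      have : 0 < 1 - (normSq a)⁻¹ := by linarith
      positivity
    have hsre : 0 < ((a + a⁻¹) / 2).re := by
      have h2 : ((a + a⁻¹) / 2).re = a.re * (1 + (normSq a)⁻¹) / 2 := by
        rw [hinv]
        have : (a + (starRingEnd ℂ) a * ((normSq a)⁻¹ : ℝ)) / 2 =
            ((1 / 2 : ℝ) : ℂ) * (a + (starRingEnd ℂ) a * ((normSq a)⁻¹ : ℝ)) := by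
          push_cast
          ring
        rw [this, re_ofReal_mul, add_re, re_mul_ofReal, conj_re]
        ring
      rw [h2]
      have : 0 < (normSq a)⁻¹ := by
        apply inv_pos.mpr
        linarith
      positivity
    have hv1 : 1 + v ≠ 0 := by
      intro h
      have := congrArg re h
      rw [add_re, one_re, zero_re] at this
      linarith
    have hXX : XX z = (1 - v) / (1 + v) := by
      rw [hza, XX]
      have e1 : 1 - 2 * ((a - 1) / (a + 1)) - ((a - 1) / (a + 1)) ^ 2 =
          (4 * a - 2 * (a ^ 2 - 1)) / (a + 1) ^ 2 := by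
        field_simp
        ring
      have e2 : 1 + 2 * ((a - 1) / (a + 1)) - ((a - 1) / (a + 1)) ^ 2 =
          (4 * a + 2 * (a ^ 2 - 1)) / (a + 1) ^ 2 := by
        field_simp
        ring
      have e3 : 4 * a + 2 * (a ^ 2 - 1) = 4 * a * (1 + v) := by
        rw [hv]
        field_simp
        ring
      have e4 : 4 * a - 2 * (a ^ 2 - 1) = 4 * a * (1 - v) := by
        rw [hv]
        field_simp
        ring
      rw [e1, e2, e3, e4, div_div_div_cancel_right₀ (pow_ne_zero _ ha1),
        mul_div_mul_left _ _ (by simp [ha0])]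
    have hball : XX z ∈ ball (0 : ℂ) 1 := by
      rw [mem_ball_zero_iff, hXX, norm_div, div_lt_one (norm_pos_iff.mpr hv1)]
      apply lt_of_pow_lt_pow_left₀ 2 (norm_nonneg _)
      rw [← normSq_eq_norm_sq, ← normSq_eq_norm_sq, normSq_apply, normSq_apply]
      simp only [sub_re, one_re, add_re, sub_im, one_im, add_im]
      nlinarith
    refine ⟨hball, ?_⟩
    have hvv : vv (XX z) = v := by
      rw [vv, hXX]
      field_simp
      ring
    have hsq : 1 + v ^ 2 = ((a + a⁻¹) / 2) ^ 2 := by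
      rw [hv]
      field_simp
      ring
    have hnum : v = (a - 1) * (a + 1) / (2 * a) := by
      rw [hv]
      field_simp
      ring
    have hden : 1 + (a + a⁻¹) / 2 = (a + 1) * (a + 1) / (2 * a) := by
      field_simp
      ring
    have h2a : 2 * a ≠ 0 := by simp [ha0]
    rw [ZZ, hvv, hsq, sr_of_sq hsre, hnum, hden, div_div_div_cancel_right₀ h2a,
      mul_div_mul_right _ _ ha1, ← hza]

end Pool.Agent.Helper82.SR
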